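import Pool.Agent.H968R3.Final

set_option autoImplicit false

namespace Pool.Agent.Results.MP_9b9b31_co.LargeGirth

open Pool.Agent.H968R3

/-- There is a positive function `c` with `c ℓ → 0` (namely `c ℓ = 1 / ⌊(ℓ - 1) / 6⌋` for `ℓ ≥ 7`)
such that for all `ℓ ≥ 7` and `g ≥ 1` every finite graph of girth at least `ℓ` that embeds on a
surface of Euler genus `g` is `(0, ⌊31 g ^ (c ℓ)⌋)`-colourable. -/
theorem result :
    ∃ c : ℕ → ℝ, (∀ ℓ, 0 < c ℓ) ∧ Filter.Tendsto c Filter.atTop (nhds 0) ∧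
      (∀ ℓ, 7 ≤ ℓ → c ℓ = 1 / (((ℓ - 1) / 6 : ℕ) : ℝ)) ∧
      ∀ ℓ : ℕ, 7 ≤ ℓ → ∀ g : ℕ, 1 ≤ g →
        ∀ (V : Type) [Finite V] (G : SimpleGraph V), (ℓ : ℕ∞) ≤ G.egirth →
          EmbedsEulerGenus G g → ZeroCol G ⌊31 * (g : ℝ) ^ c ℓ⌋₊ := by
  refine ⟨fun ℓ => if 7 ≤ ℓ then 1 / (((ℓ - 1) / 6 : ℕ) : ℝ) else 1, ?_, ?_, ?_, ?_⟩
  · intro ℓ
    beta_reduce
    split_ifs with h
    · have h1 : 0 < (ℓ - 1) / 6 := by omega
      have h2 : (0 : ℝ) < (((ℓ - 1) / 6 : ℕ) : ℝ) := by exact_mod_cast h1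
      positivity
    · norm_num
  · have h1 : Filter.Tendsto (fun ℓ : ℕ => (ℓ - 1) / 6) Filter.atTop Filter.atTop := by
      rw [Filter.tendsto_atTop_atTop]
      intro b
      exact ⟨6 * b + 1, fun a ha => by omega⟩
    have h2 : Filter.Tendsto (fun ℓ : ℕ => 1 / (((ℓ - 1) / 6 : ℕ) : ℝ)) Filter.atTop (nhds 0) :=
      tendsto_one_div_atTop_nhds_zero_nat.comp h1
    refine h2.congr' ?_
    filter_upwards [Filter.eventually_ge_atTop 7] with ℓ hℓ
    rw [if_pos hℓ]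
  · intro ℓ hℓ
    simp only [if_pos hℓ]
  · intro ℓ hℓ g hg V _ G hgirth hemb
    simp only [if_pos hℓ]
    set r := (ℓ - 1) / 6 with hr
    have hr1 : 1 ≤ r := by omega
    have hr0 : (0 : ℝ) < (r : ℝ) := by exact_mod_cast hr1
    have hg1 : (1 : ℝ) ≤ (g : ℝ) := by exact_mod_cast hg
    set x : ℝ := (g : ℝ) ^ (1 / (r : ℝ)) with hx
    have hx1 : 1 ≤ x := Real.one_le_rpow hg1 (by positivity)
    have hxr : x ^ r = (g : ℝ) := by
      rw [hx, ← Real.rpow_natCast, ← Real.rpow_mul (by linarith), one_div,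
        inv_mul_cancel₀ hr0.ne', Real.rpow_one]
    set k := ⌊31 * x⌋₊ with hk
    have hk1 : 30 * x ≤ (k : ℝ) := by
      have := Nat.lt_floor_add_one (31 * x)
      rw [← hk] at this
      linarith
    have hk27 : 27 ≤ k := by
      have : (27 : ℝ) ≤ (k : ℝ) := by linarith
      exact_mod_cast this
    have hkr : 29 * g < k ^ r := by
      have h1 : (30 * x) ^ r ≤ (k : ℝ) ^ r := pow_le_pow_left₀ (by linarith) hk1 r
      rw [mul_pow, hxr] at h1
      have h2 : (30 : ℝ) ≤ 30 ^ r := by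
        calc (30 : ℝ) = 30 ^ 1 := (pow_one _).symm
          _ ≤ 30 ^ r := pow_le_pow_right₀ (by norm_num) hr1
      have h3 : (29 : ℝ) * g < (k : ℝ) ^ r := by nlinarith
      exact_mod_cast h3
    refine zeroCol_of_genus hr1 hk27 hkr ?_ hemb
    refine lt_of_lt_of_le ?_ hgirth
    exact_mod_cast (by omega : 6 * r < ℓ)

end Pool.Agent.Results.MP_9b9b31_co.LargeGirth
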